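import Mathlib
import Pool.Agent.Work.MP_446a37_lc.Aut

/-!
Adding states that can only be left: the automaton `gad` and its reset threshold.
-/

namespace Pool.Agent.Work.MP_446a37_lc

/-- `t` is the length of the shortest reset words. -/
def Threshold {Q A : Type} (δ : Q → A → Q) (t : ℕ) : Prop :=
  (∃ u, IsReset δ u ∧ u.length = t) ∧ ∀ u, IsReset δ u → t ≤ u.length

/-- The states of `δ` and new states `i : ι` of height `h i`. The new letter `(i, j)` exchanges `i` and `j` if
`h i = h j + 1` and `h j ≠ 0`, and the new letter `(i, i)` sends `i` to `q0` if `h i = 1`. The states of height `0`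
behave like `q0`. -/
def gad {Q A ι : Type} [DecidableEq ι] (δ : Q → A → Q) (q0 : Q) (h : ι → ℕ) :
    Q ⊕ ι → A ⊕ (ι × ι) → Q ⊕ ι
  | .inl q, .inl a => .inl (δ q a)
  | .inl q, .inr _ => .inl q
  | .inr k, .inl a => if h k = 0 then .inl (δ q0 a) else .inr k
  | .inr k, .inr (i, j) =>
      if h k = 0 then .inl q0
      else if i = j then (if h i = 1 ∧ k = i then .inl q0 else .inr k)
      else if h i = h j + 1 ∧ h j ≠ 0 then .inr (Equiv.swap i j k) else .inr k

section

variable {Q A ι : Type} [DecidableEq ι] (δ : Q → A → Q) (q0 : Q) (h : ι → ℕ)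

theorem act_gad_inl (q : Q) (u : List (A ⊕ (ι × ι))) :
    act (gad δ q0 h) (.inl q) u = .inl (act δ q (u.filterMap Sum.getLeft?)) := by
  induction u generalizing q with
  | nil => rfl
  | cons x u ih =>
    rw [act_cons]
    rcases x with a | ⟨i, j⟩
    · rw [show gad δ q0 h (.inl q) (.inl a) = .inl (δ q a) from rfl, ih]
      rfl
    · rw [show gad δ q0 h (.inl q) (.inr (i, j)) = .inl q from rfl, ih]
      rfl

omit [DecidableEq ι] in
private theorem gr_cons (x : ι × ι) (u : List (A ⊕ (ι × ι))) :
    ((Sum.inr x :: u).filterMap Sum.getRight?).length = (u.filterMap Sum.getRight?).length + 1 := rfl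

omit [DecidableEq ι] in
theorem length_split (u : List (A ⊕ (ι × ι))) :
    u.length = (u.filterMap Sum.getLeft?).length + (u.filterMap Sum.getRight?).length := by
  induction u with
  | nil => rfl
  | cons x u ih =>
    rcases x with a | b
    · simp only [List.length_cons, ih, List.filterMap_cons, Sum.getLeft?, Sum.getRight?]
      omega
    · simp only [List.length_cons, ih, List.filterMap_cons, Sum.getLeft?, Sum.getRight?]
      omega

theorem gad_zero {k : ι} (hk : h k = 0) (x : A ⊕ (ι × ι)) : gad δ q0 h (.inr k) x = gad δ q0 h (.inl q0) x := by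
  rcases x with a | ⟨i, j⟩
  · simp [gad, hk]
  · simp [gad, hk]

/-- every letter that is not in `A` lowers the sum of the heights of the occupied states by at most one -/
theorem height_le (S : Finset ι) (u : List (A ⊕ (ι × ι)))
    (hu : ∀ k ∈ S, ∃ q, act (gad δ q0 h) (.inr k) u = .inl q) :
    ∑ k ∈ S, h k ≤ (u.filterMap Sum.getRight?).length := by
  induction u generalizing S with
  | nil =>
    have hS : S = ∅ := by
      rw [Finset.eq_empty_iff_forall_notMem]
      intro k hk
      obtain ⟨q, hq⟩ := hu k hk
      exact absurd hq (by rw [act_nil]; simp)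
    simp [hS]
  | cons x u ih =>
    rcases x with a | ⟨i, j⟩
    · have h1 := ih (S.filter fun k => h k ≠ 0) (by
        intro k hk
        rw [Finset.mem_filter] at hk
        obtain ⟨q, hq⟩ := hu k hk.1
        rw [act_cons, show gad δ q0 h (.inr k) (.inl a) = .inr k by simp [gad, hk.2]] at hq
        exact ⟨q, hq⟩)
      rw [Finset.sum_filter_ne_zero] at h1
      simpa [List.filterMap_cons] using h1
    · by_cases hij : i = j
      · subst hij
        by_cases hi : h i = 1
        · have h1 := ih ((S.erase i).filter fun k => h k ≠ 0) (by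
            intro k hk
            rw [Finset.mem_filter, Finset.mem_erase] at hk
            obtain ⟨q, hq⟩ := hu k hk.1.2
            rw [act_cons, show gad δ q0 h (.inr k) (.inr (i, i)) = .inr k by simp [gad, hk.2, hk.1.1]] at hq
            exact ⟨q, hq⟩)
          rw [Finset.sum_filter_ne_zero] at h1
          have h2 : ∑ k ∈ S, h k ≤ ∑ k ∈ S.erase i, h k + h i := by
            by_cases hS : i ∈ S
            · rw [Finset.sum_erase_add _ _ hS]
            · rw [Finset.erase_eq_of_notMem hS]
              omega
          rw [gr_cons]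
          omega
        · have h1 := ih (S.filter fun k => h k ≠ 0) (by
            intro k hk
            rw [Finset.mem_filter] at hk
            obtain ⟨q, hq⟩ := hu k hk.1
            rw [act_cons, show gad δ q0 h (.inr k) (.inr (i, i)) = .inr k by simp [gad, hk.2, hi]] at hq
            exact ⟨q, hq⟩)
          rw [Finset.sum_filter_ne_zero] at h1
          rw [gr_cons]
          omega
      · by_cases hh : h i = h j + 1 ∧ h j ≠ 0
        · have h1 := ih ((S.filter fun k => h k ≠ 0).map (Equiv.swap i j).toEmbedding) (by
            intro k' hk'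
            rw [Finset.mem_map] at hk'
            obtain ⟨k, hk, rfl⟩ := hk'
            rw [Finset.mem_filter] at hk
            obtain ⟨q, hq⟩ := hu k hk.1
            rw [act_cons, show gad δ q0 h (.inr k) (.inr (i, j)) = .inr (Equiv.swap i j k) by
              simp [gad, hk.2, hij, hh]] at hq
            exact ⟨q, hq⟩)
          rw [Finset.sum_map] at h1
          have h2 : ∑ k ∈ S.filter (fun k => h k ≠ 0), h k ≤
              ∑ k ∈ S.filter (fun k => h k ≠ 0), (h (Equiv.swap i j k) + if k = i then 1 else 0) := by
            refine Finset.sum_le_sum fun k _ => ?_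
            by_cases h3 : k = i
            · rw [h3, Equiv.swap_apply_left]
              simp [hh.1]
            · by_cases h4 : k = j
              · rw [h4, Equiv.swap_apply_right]
                omega
              · rw [Equiv.swap_apply_of_ne_of_ne h3 h4]
                omega
          rw [Finset.sum_add_distrib, Finset.sum_filter_ne_zero] at h2
          have h3 : ∑ k ∈ S.filter (fun k => h k ≠ 0), (if k = i then 1 else 0) ≤ 1 := by
            rw [Finset.sum_ite_eq']
            split_ifs <;> omega
          rw [gr_cons]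
          have h4 : ∑ k ∈ S.filter (fun k => h k ≠ 0), h (Equiv.swap i j k) ≤
              (u.filterMap Sum.getRight?).length := h1
          omega
        · have h1 := ih (S.filter fun k => h k ≠ 0) (by
            intro k hk
            rw [Finset.mem_filter] at hk
            obtain ⟨q, hq⟩ := hu k hk.1
            rw [act_cons, show gad δ q0 h (.inr k) (.inr (i, j)) = .inr k by
              simp only [gad, if_neg hk.2, if_neg hij, if_neg hh]] at hq
            exact ⟨q, hq⟩)
          rw [Finset.sum_filter_ne_zero] at h1
          rw [gr_cons]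
          omega

/-- all the states of a set can be brought to `q0` by as many new letters as the sum of the heights -/
theorem exists_down (hpred : ∀ i, 2 ≤ h i → ∃ j, h j + 1 = h i) (s : ℕ) :
    ∀ S : Finset ι, (∀ k ∈ S, h k ≠ 0) → ∑ k ∈ S, h k = s →
      ∃ w : List (ι × ι), w.length = s ∧
        ∀ k ∈ S, act (gad δ q0 h) (.inr k) (w.map (Sum.inr : ι × ι → A ⊕ (ι × ι))) = .inl q0 := by
  induction s with
  | zero =>
    intro S hS hs
    refine ⟨[], rfl, fun k hk => ?_⟩
    rw [Finset.sum_eq_zero_iff] at hs
    exact absurd (hs k hk) (hS k hk)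
  | succ s ih =>
    intro S hS hs
    have hne : S.Nonempty := by
      rw [Finset.nonempty_iff_ne_empty]
      rintro rfl
      simp at hs
    obtain ⟨i, hiS, hmin⟩ := S.exists_min_image h hne
    have hsum : ∑ k ∈ S.erase i, h k + h i = s + 1 := by rw [Finset.sum_erase_add _ _ hiS, hs]
    have hi0 := hS i hiS
    by_cases hi : h i = 1
    · obtain ⟨w, hw1, hw2⟩ := ih (S.erase i) (fun k hk => hS k (Finset.mem_of_mem_erase hk)) (by omega)
      refine ⟨(i, i) :: w, by simp [hw1], fun k hk => ?_⟩
      rw [List.map_cons, act_cons]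
      by_cases hki : k = i
      · rw [show gad δ q0 h (.inr k) (.inr (i, i)) = .inl q0 by simp [gad, hki, hi], act_gad_inl]
        congr 1
        rw [List.filterMap_map]
        have : (Sum.getLeft? ∘ (Sum.inr : ι × ι → A ⊕ (ι × ι))) = fun _ => none := rfl
        rw [this]
        simp [act]
      · rw [show gad δ q0 h (.inr k) (.inr (i, i)) = .inr k by simp [gad, hki, hS k hk]]
        exact hw2 k (Finset.mem_erase.2 ⟨hki, hk⟩)
    · obtain ⟨j, hj⟩ := hpred i (by omega)
      have hjS : j ∉ S := fun hjS => by
        have := hmin j hjS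
        omega
      have hij : i ≠ j := fun e => hjS (e ▸ hiS)
      have hjS' : j ∉ S.erase i := fun e => hjS (Finset.mem_of_mem_erase e)
      obtain ⟨w, hw1, hw2⟩ := ih (insert j (S.erase i)) (by
          intro k hk
          rw [Finset.mem_insert] at hk
          rcases hk with rfl | hk
          · omega
          · exact hS k (Finset.mem_of_mem_erase hk)) (by
          rw [Finset.sum_insert hjS']
          omega)
      refine ⟨(i, j) :: w, by simp [hw1], fun k hk => ?_⟩
      have hh : h i = h j + 1 ∧ h j ≠ 0 := ⟨hj.symm, by omega⟩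
      rw [List.map_cons, act_cons, show gad δ q0 h (.inr k) (.inr (i, j)) = .inr (Equiv.swap i j k) by
        simp only [gad, if_neg (hS k hk), if_neg hij, if_pos hh]]
      by_cases hki : k = i
      · rw [hki, Equiv.swap_apply_left]
        exact hw2 j (Finset.mem_insert_self _ _)
      · have hkj : k ≠ j := fun e => hjS (e ▸ hk)
        rw [Equiv.swap_apply_of_ne_of_ne hki hkj]
        exact hw2 k (Finset.mem_insert_of_mem (Finset.mem_erase.2 ⟨hki, hk⟩))

theorem threshold_gad [Fintype ι] (hpred : ∀ i, 2 ≤ h i → ∃ j, h j + 1 = h i) {t : ℕ} (ht : Threshold δ t)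
    (hpos : 0 < t + ∑ i, h i) : Threshold (gad δ q0 h) (t + ∑ i, h i) := by
  obtain ⟨⟨u, hu, hut⟩, hmin⟩ := ht
  constructor
  · obtain ⟨w, hw1, hw2⟩ := exists_down (A := A) δ q0 h hpred (∑ i, h i) (Finset.univ.filter fun k => h k ≠ 0)
      (fun k hk => (Finset.mem_filter.1 hk).2) (Finset.sum_filter_ne_zero _)
    have hlen : (w.map (Sum.inr : ι × ι → A ⊕ (ι × ι)) ++ u.map Sum.inl).length = t + ∑ i, h i := by
      simp [hw1, hut]
      omega
    refine ⟨w.map Sum.inr ++ u.map Sum.inl, ?_, hlen⟩
    have h1 : ∀ q, act (gad δ q0 h) (.inl q) (w.map Sum.inr ++ u.map Sum.inl) = .inl (act δ q u) := by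
      intro q
      rw [act_gad_inl]
      congr 2
      rw [List.filterMap_append, List.filterMap_map, List.filterMap_map]
      have e1 : (Sum.getLeft? ∘ (Sum.inr : ι × ι → A ⊕ (ι × ι))) = fun _ => none := rfl
      have e2 : (Sum.getLeft? ∘ (Sum.inl : A → A ⊕ (ι × ι))) = some := rfl
      rw [e1, e2]
      simp
    have h2 : ∀ s : Q ⊕ ι, act (gad δ q0 h) s (w.map Sum.inr ++ u.map Sum.inl) = .inl (act δ q0 u) := by
      rintro (q | k)
      · rw [h1, hu q q0]
      · by_cases hk : h k = 0
        · rw [← h1]
          rcases hc : (w.map (Sum.inr : ι × ι → A ⊕ (ι × ι)) ++ u.map Sum.inl) with _ | ⟨x, v⟩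
          · rw [hc] at hlen
            simp at hlen
            omega
          · rw [act_cons, act_cons, gad_zero δ q0 h hk]
        · rw [act_append, hw2 k (Finset.mem_filter.2 ⟨Finset.mem_univ _, hk⟩), act_gad_inl]
          congr 2
          rw [List.filterMap_map]
          have e2 : (Sum.getLeft? ∘ (Sum.inl : A → A ⊕ (ι × ι))) = some := rfl
          rw [e2]
          simp
    intro p q
    rw [h2, h2]
  · intro v hv
    rw [length_split v]
    have h1 : IsReset δ (v.filterMap Sum.getLeft?) := by
      intro p q
      have := hv (.inl p) (.inl q)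
      rw [act_gad_inl, act_gad_inl] at this
      exact Sum.inl_injective this
    have h2 := height_le δ q0 h Finset.univ v (fun k _ => ⟨_, (hv (.inr k) (.inl q0)).trans (act_gad_inl δ q0 h q0 v)⟩)
    have h3 := hmin _ h1
    omega

end

end Pool.Agent.Work.MP_446a37_lc
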