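import Mathlib
import Pool.Agent.Work.MP_446a37_lc.NC.Gad

/-!
The component that is reached from every state, and the words that bring all the states into it.
-/

namespace Pool.Agent.Work.MP_446a37_lc

/-- Every state can be reached from every state. -/
def IsStrong {Q A : Type} (δ : Q → A → Q) : Prop := ∀ p q, ∃ u, act δ p u = q

section

variable {Q A : Type} (δ : Q → A → Q)

theorem act_closed {C : Finset Q} (hC : ∀ q ∈ C, ∀ a, δ q a ∈ C) (u : List A) : ∀ q ∈ C, act δ q u ∈ C := by
  induction u with
  | nil => exact fun q hq => hq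
  | cons a u ih => exact fun q hq => ih _ (hC q hq a)

theorem act_take_drop (q : Q) (u : List A) (i : ℕ) :
    act δ (act δ q (u.take i)) (u.drop i) = act δ q u := by
  rw [← act_append, List.take_append_drop]

theorem exists_into [Fintype Q] [DecidableEq Q] {C : Finset Q} (hC : ∀ q ∈ C, ∀ a, δ q a ∈ C)
    (hr : ∀ q, ∃ u, act δ q u ∈ C) (j : ℕ) : ∀ S : Finset Q, Disjoint S C → S.card ≤ j →
      ∃ w, (∀ s ∈ S, act δ s w ∈ C) ∧ w.length ≤ ∑ i ∈ Finset.range j, (Fintype.card Q - C.card - i) := by
  induction j with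
  | zero =>
    intro S _ hS
    refine ⟨[], fun s hs => ?_, by simp⟩
    have : S = ∅ := Finset.card_eq_zero.1 (by omega)
    rw [this] at hs
    exact absurd hs (Finset.notMem_empty s)
  | succ j ih =>
    intro S hSC hS
    by_cases hj : S.card ≤ j
    · obtain ⟨w, hw1, hw2⟩ := ih S hSC hj
      exact ⟨w, hw1, hw2.trans (by rw [Finset.sum_range_succ]; omega)⟩
    have hcard : S.card = j + 1 := by omega
    have hex : ∃ l, ∃ s ∈ S, ∃ u, act δ s u ∈ C ∧ u.length = l := by
      obtain ⟨s, hs⟩ : S.Nonempty := Finset.card_pos.1 (by omega)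
      obtain ⟨u, hu⟩ := hr s
      exact ⟨u.length, s, hs, u, hu, rfl⟩
    classical
    obtain ⟨s, hs, u, hu, hul⟩ := Nat.find_spec hex
    have hmin : ∀ s' ∈ S, ∀ u' : List A, act δ s' u' ∈ C → u.length ≤ u'.length := by
      intro s' hs' u' hu'
      rw [hul]
      exact Nat.find_min' hex ⟨s', hs', u', hu', rfl⟩
    have hsC : s ∉ C := fun h => Finset.disjoint_left.1 hSC hs h
    have hpos : 0 < u.length := by
      rcases u with _ | ⟨a, u⟩
      · exact absurd hu hsC
      · simp
    -- the states on the way
    have hout : ∀ i, i < u.length → act δ s (u.take i) ∉ C := by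
      intro i hi h
      have := hmin s hs _ h
      rw [List.length_take] at this
      omega
    have hinj : ∀ i k, i < k → k < u.length → act δ s (u.take i) ≠ act δ s (u.take k) := by
      intro i k hik hk h
      have h1 : act δ s (u.take i ++ u.drop k) ∈ C := by
        rw [act_append, h, act_take_drop]
        exact hu
      have := hmin s hs _ h1
      rw [List.length_append, List.length_take, List.length_drop] at this
      omega
    have hnS : ∀ i, 0 < i → i < u.length → act δ s (u.take i) ∉ S := by
      intro i hi0 hi h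
      have h1 : act δ (act δ s (u.take i)) (u.drop i) ∈ C := by
        rw [act_take_drop]
        exact hu
      have := hmin _ h _ h1
      rw [List.length_drop] at this
      omega
    set T : Finset Q := (Finset.range (u.length - 1)).image fun i => act δ s (u.take (i + 1)) with hT
    have hTcard : T.card = u.length - 1 := by
      rw [hT, Finset.card_image_of_injOn, Finset.card_range]
      intro i hi k hk h
      rw [Finset.coe_range, Set.mem_Iio] at hi hk
      by_contra hne
      rcases lt_or_gt_of_ne hne with hlt | hlt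
      · exact hinj (i + 1) (k + 1) (by omega) (by omega) h
      · exact hinj (k + 1) (i + 1) (by omega) (by omega) h.symm
    have hTS : Disjoint T S := by
      rw [Finset.disjoint_left]
      intro x hx
      rw [hT, Finset.mem_image] at hx
      obtain ⟨i, hi, rfl⟩ := hx
      rw [Finset.mem_range] at hi
      exact hnS _ (by omega) (by omega)
    have hTC : Disjoint (T ∪ S) C := by
      rw [Finset.disjoint_union_left]
      refine ⟨?_, hSC⟩
      rw [Finset.disjoint_left]
      intro x hx
      rw [hT, Finset.mem_image] at hx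
      obtain ⟨i, hi, rfl⟩ := hx
      rw [Finset.mem_range] at hi
      exact hout _ (by omega)
    have hle : T.card + S.card + C.card ≤ Fintype.card Q := by
      rw [← Finset.card_union_of_disjoint hTS, ← Finset.card_union_of_disjoint hTC]
      exact Finset.card_le_univ _
    -- the rest
    set S' : Finset Q := (S.image fun q => act δ q u) \ C with hS'
    obtain ⟨w, hw1, hw2⟩ := ih S' Finset.sdiff_disjoint (by
      have h1 : S' ⊆ (S.erase s).image fun q => act δ q u := by
        intro x hx
        rw [hS', Finset.mem_sdiff, Finset.mem_image] at hx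
        obtain ⟨⟨q, hq, rfl⟩, hx⟩ := hx
        exact Finset.mem_image_of_mem _ (Finset.mem_erase.2 ⟨fun e => hx (e ▸ hu), hq⟩)
      refine (Finset.card_le_card h1).trans (Finset.card_image_le.trans ?_)
      rw [Finset.card_erase_of_mem hs]
      omega)
    refine ⟨u ++ w, fun q hq => ?_, ?_⟩
    · rw [act_append]
      by_cases h : act δ q u ∈ C
      · exact act_closed δ hC w _ h
      · exact hw1 _ (Finset.mem_sdiff.2 ⟨Finset.mem_image_of_mem _ hq, h⟩)
    · rw [List.length_append, Finset.sum_range_succ]
      omega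

theorem sum_range_sub (d : ℕ) : ∑ i ∈ Finset.range d, (d - i) = d * (d + 1) / 2 := by
  rw [← Finset.sum_range_reflect]
  have h1 : ∀ i ∈ Finset.range d, d - (d - 1 - i) = i + 1 := by
    intro i hi
    rw [Finset.mem_range] at hi
    omega
  rw [Finset.sum_congr rfl h1, Finset.sum_add_distrib]
  have h2 := Finset.sum_range_id_mul_two d
  simp only [Finset.sum_const, Finset.card_range, smul_eq_mul, mul_one]
  rcases d with _ | d
  · simp
  · have h3 : (d + 1) * (d + 1 + 1) = 2 * ((∑ i ∈ Finset.range (d + 1), i) + (d + 1)) := by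
      have : (d + 1) * (d + 1 - 1) = (d + 1) * d := by simp
      nlinarith
    rw [h3, Nat.mul_div_cancel_left _ (by norm_num)]

/-- the restriction to a closed set -/
def restr {C : Finset Q} (hC : ∀ q ∈ C, ∀ a, δ q a ∈ C) : {q // q ∈ C} → A → {q // q ∈ C} :=
  fun q a => ⟨δ q.1 a, hC q.1 q.2 a⟩

theorem act_restr {C : Finset Q} (hC : ∀ q ∈ C, ∀ a, δ q a ∈ C) (u : List A) (q : {q // q ∈ C}) :
    (act (restr δ hC) q u).1 = act δ q.1 u := by
  induction u generalizing q with
  | nil => rfl
  | cons a u ih => exact ih _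

/-- a synchronizing automaton has a closed strongly connected set of states that can be reached from every state -/
theorem exists_comp [Fintype Q] [Nonempty Q] {w : List A} (hw : IsReset δ w) :
    ∃ C : Finset Q, C.Nonempty ∧ (∀ q ∈ C, ∀ a, δ q a ∈ C) ∧ (∀ p ∈ C, ∀ q ∈ C, ∃ u, act δ p u = q) ∧
      (∀ q, ∃ u, act δ q u ∈ C) ∧ (¬ IsStrong δ → C ≠ Finset.univ) := by
  classical
  obtain ⟨q0⟩ := ‹Nonempty Q›
  set r := act δ q0 w with hr
  have hall : ∀ q, act δ q w = r := fun q => hw q q0
  refine ⟨Finset.univ.filter fun q => ∃ u, act δ r u = q, ⟨r, ?_⟩, ?_, ?_, ?_, ?_⟩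
  · exact Finset.mem_filter.2 ⟨Finset.mem_univ _, [], rfl⟩
  · intro q hq a
    obtain ⟨-, u, hu⟩ := Finset.mem_filter.1 hq
    refine Finset.mem_filter.2 ⟨Finset.mem_univ _, u ++ [a], ?_⟩
    rw [act_append, hu]
    rfl
  · intro p _ q hq
    obtain ⟨-, u, hu⟩ := Finset.mem_filter.1 hq
    exact ⟨w ++ u, by rw [act_append, hall, hu]⟩
  · intro q
    exact ⟨w, Finset.mem_filter.2 ⟨Finset.mem_univ _, [], (hall q).symm⟩⟩
  · intro hns hC
    apply hns
    intro p q
    have hq : q ∈ Finset.univ.filter fun q => ∃ u, act δ r u = q := by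
      rw [hC]
      exact Finset.mem_univ _
    obtain ⟨-, u, hu⟩ := Finset.mem_filter.1 hq
    exact ⟨w ++ u, by rw [act_append, hall, hu]⟩

theorem exists_threshold (h : ∃ u, IsReset δ u) : ∃ t, Threshold δ t := by
  classical
  have hex : ∃ l, ∃ u, IsReset δ u ∧ u.length = l := by
    obtain ⟨u, hu⟩ := h
    exact ⟨u.length, u, hu, rfl⟩
  exact ⟨Nat.find hex, Nat.find_spec hex, fun u hu => Nat.find_min' hex ⟨u, hu, rfl⟩⟩

theorem threshold_restr [Fintype Q] {C : Finset Q} (hC : ∀ q ∈ C, ∀ a, δ q a ∈ C)
    (hr : ∀ q, ∃ u, act δ q u ∈ C) {T t : ℕ} (hT : Threshold δ T) (ht : Threshold (restr δ hC) t) :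
    t ≤ T ∧ T ≤ t + (Fintype.card Q - C.card) * (Fintype.card Q - C.card + 1) / 2 := by
  classical
  constructor
  · obtain ⟨⟨u, hu, rfl⟩, -⟩ := hT
    apply ht.2
    intro p q
    apply Subtype.ext
    rw [act_restr, act_restr]
    exact hu _ _
  · obtain ⟨⟨v, hv, rfl⟩, -⟩ := ht
    obtain ⟨w, hw1, hw2⟩ := exists_into δ hC hr (Fintype.card Q - C.card) Cᶜ
      disjoint_compl_left (by rw [Finset.card_compl])
    rw [sum_range_sub] at hw2
    have hw3 : ∀ q, act δ q w ∈ C := by
      intro q
      by_cases hq : q ∈ C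
      · exact act_closed δ hC w q hq
      · exact hw1 q (Finset.mem_compl.2 hq)
    have h1 := hT.2 (w ++ v) (by
      intro p q
      rw [act_append, act_append]
      have := congrArg Subtype.val (hv ⟨_, hw3 p⟩ ⟨_, hw3 q⟩)
      rwa [act_restr, act_restr] at this)
    rw [List.length_append] at h1
    omega

end

end Pool.Agent.Work.MP_446a37_lc
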