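import Mathlib
import Pool.Agent.Work.MP_446a37_lc.NC.Up

/-!
Extremal automata that are not strongly connected, and the Cerny conjecture.
-/

namespace Pool.Agent.Work.MP_446a37_lc

/-- The statement of Q1: every extremal automaton (with a finite alphabet and at least two states) is irreducible. -/
def AllIrreducible : Prop :=
  ∀ (Q A : Type) [Fintype Q] [DecidableEq Q] [Finite A] (δ : Q → A → Q), 2 ≤ Fintype.card Q → Extremal δ →
    Irreducible δ

/-- Every extremal automaton with `n` states is strongly connected. -/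
def StrongAt (n : ℕ) : Prop :=
  ∀ (Q A : Type) [Fintype Q] [Finite A] (δ : Q → A → Q), Fintype.card Q = n → Extremal δ → IsStrong δ

theorem exists_heights (d : ℕ) : ∀ g, g ≤ d * (d + 1) / 2 →
    ∃ h : Fin d → ℕ, (∀ i, 2 ≤ h i → ∃ j, h j + 1 = h i) ∧ ∑ i, h i = g := by
  induction d with
  | zero =>
    intro g hg
    exact ⟨fun i => 0, fun i => i.elim0, by simp at hg; simp [hg]⟩
  | succ d ih =>
    intro g hg
    by_cases hgd : g ≤ d * (d + 1) / 2
    · obtain ⟨h, h1, h2⟩ := ih g hgd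
      refine ⟨Fin.cons 0 h, ?_, ?_⟩
      · intro i
        refine Fin.cases ?_ (fun i => ?_) i
        · simp
        · intro hi
          rw [Fin.cons_succ] at hi
          obtain ⟨j, hj⟩ := h1 i hi
          exact ⟨j.succ, by rw [Fin.cons_succ, Fin.cons_succ, hj]⟩
      · rw [Fin.sum_univ_succ]
        simp [h2]
    · have h3 : (d + 1) * (d + 1 + 1) / 2 = d * (d + 1) / 2 + (d + 1) := by
        rw [show (d + 1) * (d + 1 + 1) = d * (d + 1) + (d + 1) * 2 by ring, Nat.add_mul_div_right _ _ (by norm_num)]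
      have h4 : ∑ i : Fin d, ((i : ℕ) + 1) = d * (d + 1) / 2 := by
        rw [Fin.sum_univ_eq_sum_range (fun i => i + 1) d, ← sum_range_sub, ← Finset.sum_range_reflect (fun i => d - i)]
        refine Finset.sum_congr rfl fun i hi => ?_
        rw [Finset.mem_range] at hi
        omega
      refine ⟨Fin.cons (g - d * (d + 1) / 2) fun i => (i : ℕ) + 1, ?_, ?_⟩
      · intro i
        refine Fin.cases ?_ (fun i => ?_) i
        · intro hi
          rw [Fin.cons_zero] at hi
          refine ⟨Fin.succ ⟨g - d * (d + 1) / 2 - 2, by omega⟩, ?_⟩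
          rw [Fin.cons_succ, Fin.cons_zero]
          simp only
          omega
        · intro hi
          rw [Fin.cons_succ] at hi
          refine ⟨Fin.succ ⟨(i : ℕ) - 1, by omega⟩, ?_⟩
          rw [Fin.cons_succ, Fin.cons_succ]
          simp only
          omega
      · rw [Fin.sum_univ_succ, Fin.cons_zero]
        simp only [Fin.cons_succ, h4]
        omega

/-- extremal automata which are not strongly connected, from automata with a suitable reset threshold -/
theorem exists_extremal {Q A : Type} [Fintype Q] [Finite A] [Nonempty Q] (δ : Q → A → Q) {t : ℕ}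
    (ht : Threshold δ t) {d : ℕ} (hd : 1 ≤ d) (h1 : t ≤ (Fintype.card Q + d - 1) ^ 2)
    (h2 : (Fintype.card Q + d - 1) ^ 2 ≤ t + d * (d + 1) / 2) :
    ∃ (Q' A' : Type) (_ : Fintype Q') (_ : Finite A') (δ' : Q' → A' → Q'),
      Fintype.card Q' = Fintype.card Q + d ∧ Extremal δ' ∧ ¬ IsStrong δ' := by
  obtain ⟨h, hp, hs⟩ := exists_heights d ((Fintype.card Q + d - 1) ^ 2 - t) (by omega)
  obtain ⟨q0⟩ := ‹Nonempty Q›
  have hQ : 0 < Fintype.card Q := Fintype.card_pos_iff.2 ⟨q0⟩
  have hpos : 0 < (Fintype.card Q + d - 1) ^ 2 := by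
    have : 0 < Fintype.card Q + d - 1 := by omega
    positivity
  have hT := threshold_gad δ q0 h hp ht (by omega)
  have hcard : Fintype.card (Q ⊕ Fin d) = Fintype.card Q + d := by simp
  refine ⟨Q ⊕ Fin d, A ⊕ (Fin d × Fin d), inferInstance, inferInstance, gad δ q0 h, hcard, ?_, ?_⟩
  · have e : t + ∑ i, h i = (Fintype.card (Q ⊕ Fin d) - 1) ^ 2 := by
      rw [hcard]
      omega
    rw [e] at hT
    exact hT
  · intro hst
    obtain ⟨u, hu⟩ := hst (.inl q0) (.inr ⟨0, by omega⟩)
    rw [act_gad_inl] at hu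
    exact absurd hu (by simp)

theorem strongAt_iff {n : ℕ} (hn : 2 ≤ n) : StrongAt n ↔
    ∀ (Q A : Type) [Fintype Q] [Finite A] (δ : Q → A → Q) (t : ℕ), IsStrong δ → Threshold δ t →
      1 ≤ Fintype.card Q → Fintype.card Q < n →
      t + (n - Fintype.card Q) * (n - Fintype.card Q + 1) / 2 < (n - 1) ^ 2 ∨ (n - 1) ^ 2 < t := by
  constructor
  · intro h Q A _ _ δ t _ ht h1 h2
    by_contra hcon
    push Not at hcon
    have : Nonempty Q := Fintype.card_pos_iff.1 (by omega)
    have e : Fintype.card Q + (n - Fintype.card Q) - 1 = n - 1 := by omega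
    obtain ⟨Q', A', _, _, δ', hc, hx, hns⟩ := exists_extremal δ ht (d := n - Fintype.card Q) (by omega)
      (by rw [e]; exact hcon.2) (by rw [e]; exact hcon.1)
    exact hns (h Q' A' δ' (by rw [hc]; omega) hx)
  · intro h Q A _ _ δ hc hx
    by_contra hns
    have : Nonempty Q := Fintype.card_pos_iff.1 (by omega)
    obtain ⟨w, hw, -⟩ := hx.1
    obtain ⟨C, hC1, hC2, hC3, hC4, hC5⟩ := exists_comp δ hw
    have hlt : C.card < Fintype.card Q := by
      refine lt_of_le_of_ne (Finset.card_le_univ _) fun e => hC5 hns ?_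
      exact Finset.card_eq_iff_eq_univ _ |>.1 e
    obtain ⟨t, ht⟩ := exists_threshold (restr δ hC2) ⟨w, fun p q => by
      apply Subtype.ext
      rw [act_restr, act_restr]
      exact hw _ _⟩
    have hT : Threshold δ ((n - 1) ^ 2) := by
      rw [← hc]
      exact hx
    obtain ⟨h1, h2⟩ := threshold_restr δ hC2 hC4 hT ht
    have hcC : Fintype.card {q // q ∈ C} = C.card := Fintype.card_coe C
    have h3 := h {q // q ∈ C} A (restr δ hC2) t (by
      intro p q
      obtain ⟨u, hu⟩ := hC3 p.1 p.2 q.1 q.2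
      exact ⟨u, Subtype.ext (by rw [act_restr, hu])⟩) ht (by rw [hcC]; exact hC1.card_pos) (by rw [hcC]; omega)
    rw [hcC] at h3
    rw [hc] at h2
    omega

/-- the bound for the automata which are not strongly connected -/
theorem strongAt_of_cerny {n : ℕ} (hn : 3 ≤ n)
    (h : ∀ (Q A : Type) [Fintype Q] [Finite A] (δ : Q → A → Q), IsStrong δ → Fintype.card Q < n →
      (∃ u, IsReset δ u) → ∃ u, IsReset δ u ∧ u.length ≤ (Fintype.card Q - 1) ^ 2) : StrongAt n := by
  rw [strongAt_iff (by omega)]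
  intro Q A _ _ δ t hs ht h1 h2
  left
  obtain ⟨u, hu, hul⟩ := h Q A δ hs h2 ⟨_, ht.1.choose_spec.1⟩
  have h3 := ht.2 u hu
  obtain ⟨m, hm⟩ : ∃ m, Fintype.card Q = m + 1 := ⟨Fintype.card Q - 1, by omega⟩
  obtain ⟨d, hd⟩ : ∃ d, n = m + 1 + (d + 1) := ⟨n - (m + 1) - 1, by omega⟩
  rw [hm] at hul ⊢
  have e1 : n - (m + 1) = d + 1 := by omega
  have e2 : n - 1 = m + d + 1 := by omega
  rw [e1, e2]
  have e3 : m + 1 - 1 = m := by omega
  rw [e3] at hul
  have h4 : (d + 1) * (d + 1 + 1) / 2 ≤ (d + 1) * (d + 1 + 1) := Nat.div_le_self _ _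
  have h5 : (d + 1) * (d + 1 + 1) / 2 * 2 = (d + 1) * (d + 1 + 1) :=
    Nat.div_mul_cancel (Nat.even_mul_succ_self (d + 1)).two_dvd
  have h6 : 1 ≤ m + d := by omega
  nlinarith [mul_nonneg (Nat.zero_le m) (Nat.zero_le d), Nat.zero_le (d * d)]

theorem strongAt_of_irreducible (hQ : AllIrreducible) {n : ℕ} (hn : 3 ≤ n) : StrongAt n := by
  intro Q A _ _ δ hc hx
  by_contra hns
  classical
  have : Nonempty Q := Fintype.card_pos_iff.1 (by omega)
  obtain ⟨w, hw, -⟩ := hx.1
  obtain ⟨C, hC1, hC2, hC3, hC4, hC5⟩ := exists_comp δ hw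
  have hlt : C.card < Fintype.card Q := by
    refine lt_of_le_of_ne (Finset.card_le_univ _) fun e => hC5 hns ?_
    exact Finset.card_eq_iff_eq_univ _ |>.1 e
  have hpos := hC1.card_pos
  by_cases h1 : C.card = 1
  · -- a sink state
    obtain ⟨r, hr⟩ := Finset.card_eq_one.1 h1
    have ht : Threshold (restr δ hC2) 0 := by
      refine ⟨⟨[], fun p q => ?_, rfl⟩, fun u _ => Nat.zero_le _⟩
      apply Subtype.ext
      have hall : ∀ x ∈ C, x = r := fun x hx => Finset.mem_singleton.1 (hr ▸ hx)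
      exact (hall _ p.2).trans (hall _ q.2).symm
    have hT : Threshold δ ((n - 1) ^ 2) := by
      rw [← hc]
      exact hx
    obtain ⟨-, h2⟩ := threshold_restr δ hC2 hC4 hT ht
    rw [h1, hc] at h2
    obtain ⟨k, rfl⟩ : ∃ k, n = k + 3 := ⟨n - 3, by omega⟩
    have e1 : k + 3 - 1 = k + 2 := by omega
    rw [e1] at h2
    have h5 : (k + 2) * (k + 2 + 1) / 2 * 2 = (k + 2) * (k + 2 + 1) :=
      Nat.div_mul_cancel (Nat.even_mul_succ_self (k + 2)).two_dvd
    nlinarith
  · -- the vectors supported in `C`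
    have hirr := hQ Q A δ (by omega) hx
    let W : Submodule ℂ (Q → ℂ) :=
      { carrier := {v | (∀ q, q ∉ C → v q = 0) ∧ ∑ q, v q = 0}
        add_mem' := by
          rintro v v' ⟨h1, h2⟩ ⟨h3, h4⟩
          refine ⟨fun q hq => by rw [Pi.add_apply, h1 q hq, h3 q hq, add_zero], ?_⟩
          simp only [Pi.add_apply, Finset.sum_add_distrib, h2, h4, add_zero]
        zero_mem' := ⟨fun _ _ => rfl, by simp⟩
        smul_mem' := by
          rintro c v ⟨h1, h2⟩
          refine ⟨fun q hq => by rw [Pi.smul_apply, h1 q hq, smul_zero], ?_⟩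
          simp only [Pi.smul_apply, ← Finset.smul_sum, h2, smul_zero] }
    have hsum : ∀ (a : A) (v : Q → ℂ), ∑ p, push δ a v p = ∑ q, v q := by
      intro a v
      simp only [push]
      rw [Finset.sum_comm]
      refine Finset.sum_congr rfl fun q _ => ?_
      rw [Finset.sum_ite_eq]
      simp
    rcases hirr W (fun v hv => hv.2) (fun a v hv => by
        refine ⟨fun p hp => ?_, by rw [hsum, hv.2]⟩
        unfold push
        refine Finset.sum_eq_zero fun q _ => ?_
        by_cases hq : q ∈ C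
        · rw [if_neg]
          rintro rfl
          exact hp (hC2 q hq a)
        · rw [hv.1 q hq, ite_self]) with h2 | h2
    · obtain ⟨p, q, hp, hq, hpq⟩ : ∃ p q, p ∈ C ∧ q ∈ C ∧ p ≠ q := by
        obtain ⟨p, hp, q, hq, hpq⟩ := Finset.one_lt_card.1 (by omega : 1 < C.card)
        exact ⟨p, q, hp, hq, hpq⟩
      have h3 : (Pi.single p 1 - Pi.single q 1 : Q → ℂ) ∈ W := by
        refine ⟨fun x hx => ?_, by simp [Finset.sum_sub_distrib]⟩
        have h4 : x ≠ p := fun e => hx (e ▸ hp)
        have h5 : x ≠ q := fun e => hx (e ▸ hq)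
        rw [Pi.sub_apply, Pi.single_eq_of_ne h4, Pi.single_eq_of_ne h5, sub_zero]
      rw [h2, Submodule.mem_bot] at h3
      have h4 := congrFun h3 p
      rw [Pi.sub_apply, Pi.single_eq_same, Pi.single_eq_of_ne hpq] at h4
      simp at h4
    · obtain ⟨p, hp⟩ := hC1
      obtain ⟨q, hq⟩ : ∃ q, q ∉ C := by
        by_contra hcon
        push Not at hcon
        exact hC5 hns (Finset.eq_univ_iff_forall.2 hcon)
      have h3 := (h2 (Pi.single p 1 - Pi.single q 1) (by simp [Finset.sum_sub_distrib])).1 q hq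
      have hpq : q ≠ p := fun e => hq (e ▸ hp)
      rw [Pi.sub_apply, Pi.single_eq_same, Pi.single_eq_of_ne hpq] at h3
      simp at h3

theorem near_cerny (h : ∀ n, 3 ≤ n → StrongAt n) (Q A : Type) [Fintype Q] [Finite A] (δ : Q → A → Q)
    (hδ : ∃ u, IsReset δ u) (s : ℕ) (hs : Fintype.card Q ≤ s ^ 2) :
    ∃ u, IsReset δ u ∧ u.length ≤ (Fintype.card Q + 2 * s) ^ 2 := by
  by_contra hcon
  push Not at hcon
  obtain ⟨t, ht⟩ := exists_threshold δ hδ
  obtain ⟨u, hu, hut⟩ := ht.1
  have hlt := hcon u hu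
  rw [hut] at hlt
  have hQ : Nonempty Q := by
    by_contra hE
    rw [not_nonempty_iff] at hE
    have := hcon [] (fun p => hE.elim p)
    simp at this
  have hm : 0 < Fintype.card Q := Fintype.card_pos_iff.2 hQ
  have hs0 : 0 < s := by
    rcases Nat.eq_zero_or_pos s with rfl | h
    · simp at hs
    · exact h
  set m := Fintype.card Q with hmdef
  set r := Nat.sqrt (t - 1) with hr
  have h1 : r * r ≤ t - 1 := Nat.sqrt_le (t - 1)
  have h2 : t - 1 < (r + 1) * (r + 1) := Nat.lt_succ_sqrt (t - 1)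
  have h3 : m + 2 * s ≤ r := by
    rw [hr, Nat.le_sqrt]
    have : (m + 2 * s) * (m + 2 * s) = (m + 2 * s) ^ 2 := by ring
    omega
  have ht1 : 1 ≤ t := by omega
  have h1' : r * r + 1 ≤ t := by omega
  have h2' : t ≤ (r + 1) * (r + 1) := by omega
  obtain ⟨d, hd⟩ : ∃ d, r + 2 = m + d := ⟨r + 2 - m, by omega⟩
  have e : m + d - 1 = r + 1 := by omega
  have hd2 : 2 * s + 2 ≤ d := by omega
  have h5 : d * (d + 1) / 2 * 2 = d * (d + 1) := Nat.div_mul_cancel (Nat.even_mul_succ_self d).two_dvd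
  obtain ⟨Q', A', _, _, δ', hc, hx, hns⟩ := exists_extremal δ ht (d := d) (by omega)
    (by rw [← hmdef, e]; nlinarith) (by
      rw [← hmdef, e]
      obtain ⟨k, hk⟩ : ∃ k, d = 2 * s + 2 + k := ⟨d - (2 * s + 2), by omega⟩
      have h6 : 4 * r ≤ d * (d + 1) := by
        have : r = m + (2 * s + k) := by omega
        rw [this, hk]
        nlinarith [Nat.zero_le (s * k), Nat.zero_le (k * k)]
      nlinarith)
  exact hns (h (m + d) (by omega) Q' A' δ' hc hx)

end Pool.Agent.Work.MP_446a37_lc
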